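import Pool.Agent.Z705.Defs

/-!
# The character sum over the cusps for a given matrix
-/

set_option autoImplicit false

namespace Pool.Agent.Z363.Z705

open Finset
open Pool.Agent.Z700 (un)
open Pool.Agent.Z705 (psg)

/-! ### Chinese remainder theorem for sums -/

theorem sum_crt {m n : ℕ} (h : Nat.Coprime m n) (hm : 0 < m) (hn : 0 < n) (f g : ℕ → ℤ) :
    ∑ u ∈ range (m * n), f (u % m) * g (u % n) = (∑ u ∈ range m, f u) * ∑ v ∈ range n, g v := by
  rw [Finset.sum_mul_sum, ← Finset.sum_product']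
  refine Finset.sum_nbij (fun u => (u % m, u % n)) ?_ ?_ ?_ ?_
  · intro u _
    rw [Finset.mem_product, mem_range, mem_range]
    exact ⟨Nat.mod_lt _ hm, Nat.mod_lt _ hn⟩
  · intro u hu v hv huv
    rw [Finset.coe_range, Set.mem_Iio] at hu hv
    simp only [Prod.mk.injEq] at huv
    have h1 : u ≡ v [MOD m * n] := (Nat.modEq_and_modEq_iff_modEq_mul h).1 ⟨huv.1, huv.2⟩
    exact Nat.ModEq.eq_of_lt_of_lt h1 hu hv
  · rintro ⟨x, y⟩ hxy
    rw [Finset.coe_product, Set.mem_prod, coe_range, coe_range, Set.mem_Iio, Set.mem_Iio] at hxy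
    obtain ⟨hx, hy⟩ := hxy
    have h1 := (Nat.chineseRemainder h x y).2
    refine ⟨Nat.chineseRemainder h x y, ?_, ?_⟩
    · rw [Finset.coe_range, Set.mem_Iio]
      exact Nat.chineseRemainder_lt_mul h x y hm.ne' hn.ne'
    · have h2 : (Nat.chineseRemainder h x y : ℕ) % m = x % m := h1.1
      have h3 : (Nat.chineseRemainder h x y : ℕ) % n = y % n := h1.2
      rw [Nat.mod_eq_of_lt hx] at h2
      rw [Nat.mod_eq_of_lt hy] at h3
      exact Prod.ext h2 h3
  · intro u _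
    rfl

theorem sum_crt_prod (G : ℕ → ℕ → ℤ) (P : Finset ℕ) (hP : ∀ p ∈ P, p.Prime) :
    ∑ u ∈ range (∏ p ∈ P, p), ∏ p ∈ P, G p (u % p) = ∏ p ∈ P, ∑ u ∈ range p, G p u := by
  classical
  induction P using Finset.induction_on with
  | empty => simp
  | insert p P hp ih =>
    have hpp := hP p (mem_insert_self _ _)
    have hP' : ∀ q ∈ P, q.Prime := fun q hq => hP q (mem_insert_of_mem hq)
    have hpos : 0 < ∏ q ∈ P, q := Finset.prod_pos fun q hq => (hP' q hq).pos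
    have hcop : Nat.Coprime p (∏ q ∈ P, q) := by
      refine Nat.Coprime.prod_right fun q hq => ?_
      refine (Nat.coprime_primes hpp (hP' q hq)).2 ?_
      rintro rfl
      exact hp hq
    rw [Finset.prod_insert hp, Finset.prod_insert hp, ← ih hP', ← sum_crt hcop hpp.pos hpos]
    refine Finset.sum_congr rfl fun u _ => ?_
    rw [Finset.prod_insert hp]
    congr 1
    refine Finset.prod_congr rfl fun q hq => ?_
    rw [Nat.mod_mod_of_dvd u (Finset.dvd_prod_of_mem _ hq)]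

/-! ### The symbols -/

theorem jac_prod {P : Finset ℕ} (hP : ∀ p ∈ P, p.Prime) (x : ℤ) :
    jacobiSym x (∏ p ∈ P, p) = ∏ p ∈ P, jacobiSym x p := by
  classical
  induction P using Finset.induction_on with
  | empty => simp
  | insert p P hp ih =>
    have h1 : (∏ q ∈ P, q) ≠ 0 := Finset.prod_ne_zero_iff.2 fun q hq =>
      (hP q (mem_insert_of_mem hq)).ne_zero
    rw [Finset.prod_insert hp, jacobiSym.mul_right' _ (hP p (mem_insert_self _ _)).ne_zero h1,
      Finset.prod_insert hp, ih fun q hq => hP q (mem_insert_of_mem hq)]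

theorem prod_dvd_iff {P : Finset ℕ} (hP : ∀ p ∈ P, p.Prime) (x : ℤ) :
    ((∏ p ∈ P, p : ℕ) : ℤ) ∣ x ↔ ∀ p ∈ P, (p : ℤ) ∣ x := by
  constructor
  · intro h p hp
    exact (Int.natCast_dvd_natCast.2 (Finset.dvd_prod_of_mem (fun p => p) hp)).trans h
  · intro h
    rw [Int.natCast_dvd]
    exact Finset.prod_primes_dvd x.natAbs (fun p hp => (hP p hp).prime)
      fun p hp => Int.natCast_dvd.1 (h p hp)

theorem jac_congr {x y : ℤ} {p : ℕ} (h : (p : ℤ) ∣ x - y) : jacobiSym x p = jacobiSym y p :=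
  jacobiSym.mod_left' (Int.modEq_iff_dvd.2 h).symm

theorem jac_zero {x : ℤ} {p : ℕ} (hp : p.Prime) (h : (p : ℤ) ∣ x) : jacobiSym x p = 0 := by
  have h1 : jacobiSym x p = jacobiSym 0 p := jac_congr (by rwa [sub_zero])
  rw [h1, jacobiSym.zero_left hp.one_lt]

theorem jac_sq {x : ℤ} {p : ℕ} (hp : p.Prime) (h : ¬ (p : ℤ) ∣ x) :
    jacobiSym x p * jacobiSym x p = 1 := by
  have h1 : jacobiSym x p = 1 ∨ jacobiSym x p = -1 := by
    apply jacobiSym.eq_one_or_neg_one
    rw [Int.gcd_comm, ← Int.isCoprime_iff_gcd_eq_one]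
    exact (Prime.coprime_iff_not_dvd (Nat.prime_iff_prime_int.1 hp)).2 h
  rcases h1 with h1 | h1 <;> rw [h1] <;> norm_num

/-- the sum of all the symbols vanishes -/
theorem sum_jac {p : ℕ} (hp : p.Prime) (p2 : p ≠ 2) : ∑ u ∈ range p, jacobiSym (u : ℤ) p = 0 := by
  have : Fact p.Prime := ⟨hp⟩
  have h1 : ∑ x : ZMod p, quadraticChar (ZMod p) x = 0 :=
    quadraticChar_sum_zero (by rwa [ZMod.ringChar_zmod_n])
  rw [← h1]
  refine Finset.sum_bij (fun u _ => (u : ZMod p)) (fun u _ => mem_univ _) ?_ ?_ ?_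
  · intro u hu v hv huv
    have h2 := congrArg ZMod.val huv
    rwa [ZMod.val_natCast_of_lt (mem_range.1 hu), ZMod.val_natCast_of_lt (mem_range.1 hv)] at h2
  · intro x _
    exact ⟨x.val, mem_range.2 (ZMod.val_lt x), ZMod.natCast_zmod_val x⟩
  · intro u _
    rw [← jacobiSym.legendreSym.to_jacobiSym, legendreSym]
    push_cast
    rfl

/-! ### The local sums -/

section

variable (a a' X Y : ℕ)

open Classical in
/-- the local summand -/
noncomputable def G (p u : ℕ) : ℤ :=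
  if (p : ℤ) ∣ (a : ℤ) * (u : ℤ) + (X : ℤ) ∧ (p : ℤ) ∣ (a' : ℤ) * (u : ℤ) - (Y : ℤ)
    then jacobiSym (u : ℤ) p else 0

theorem G_mod (p u : ℕ) : G a a' X Y p (u % p) = G a a' X Y p u := by
  have h0 : (p : ℤ) ∣ ((u % p : ℕ) : ℤ) - (u : ℤ) := by
    have h := Nat.div_add_mod u p
    refine ⟨-((u / p : ℕ) : ℤ), ?_⟩
    have h1 : (u : ℤ) = p * ((u / p : ℕ) : ℤ) + ((u % p : ℕ) : ℤ) := by exact_mod_cast h.symm
    rw [h1]
    ring
  unfold G
  have e1 : (p : ℤ) ∣ (a : ℤ) * ((u % p : ℕ) : ℤ) + (X : ℤ) ↔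
      (p : ℤ) ∣ (a : ℤ) * (u : ℤ) + (X : ℤ) := by
    have : (a : ℤ) * ((u % p : ℕ) : ℤ) + (X : ℤ) = a * (((u % p : ℕ) : ℤ) - (u : ℤ)) +
      ((a : ℤ) * (u : ℤ) + (X : ℤ)) := by ring
    rw [this]
    exact (Int.dvd_add_right (h0.mul_left _))
  have e2 : (p : ℤ) ∣ (a' : ℤ) * ((u % p : ℕ) : ℤ) - (Y : ℤ) ↔
      (p : ℤ) ∣ (a' : ℤ) * (u : ℤ) - (Y : ℤ) := by
    have : (a' : ℤ) * ((u % p : ℕ) : ℤ) - (Y : ℤ) = a' * (((u % p : ℕ) : ℤ) - (u : ℤ)) +
      ((a' : ℤ) * (u : ℤ) - (Y : ℤ)) := by ring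
    rw [this]
    exact (Int.dvd_add_right (h0.mul_left _))
  rw [jac_congr h0]
  simp only [e1, e2]

theorem cop {p x : ℕ} (hp : p.Prime) (h : ¬ p ∣ x) : ∃ y : ℕ, (p : ℤ) ∣ x * y - 1 := by
  have : Fact p.Prime := ⟨hp⟩
  refine ⟨((x : ZMod p)⁻¹).val, ?_⟩
  rw [← ZMod.intCast_zmod_eq_zero_iff_dvd]
  push_cast
  rw [ZMod.natCast_zmod_val, mul_inv_cancel₀, sub_self]
  rw [Ne, ZMod.natCast_eq_zero_iff]
  exact h

/-- a linear congruence has one solution -/
theorem single {p x : ℕ} (hp : p.Prime) (h : ¬ p ∣ x) (z : ℤ) :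
    ∃ u ∈ range p, (p : ℤ) ∣ x * (u : ℤ) - z ∧ ∀ v ∈ range p, (p : ℤ) ∣ x * (v : ℤ) - z → v = u := by
  have : Fact p.Prime := ⟨hp⟩
  have hx : (x : ZMod p) ≠ 0 := by
    rw [Ne, ZMod.natCast_eq_zero_iff]
    exact h
  refine ⟨((z : ZMod p) / x).val, mem_range.2 (ZMod.val_lt _), ?_, ?_⟩
  · rw [← ZMod.intCast_zmod_eq_zero_iff_dvd]
    push_cast
    rw [ZMod.natCast_zmod_val]
    field_simp
    ring
  · intro v hv hvz
    rw [← ZMod.intCast_zmod_eq_zero_iff_dvd] at hvz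
    push_cast at hvz
    have h1 : (v : ZMod p) = (z : ZMod p) / x := by
      rw [eq_div_iff hx]
      linear_combination hvz
    rw [← h1, ZMod.val_natCast_of_lt (mem_range.1 hv)]

theorem local_sum {p : ℕ} (hp : p.Prime) (p2 : p ≠ 2) (h3 : p ∣ a * Y + a' * X) :
    ∑ u ∈ range p, G a a' X Y p u = psg p a a' Y X := by
  have hpp := Nat.prime_iff_prime_int.1 hp
  have h3z : (p : ℤ) ∣ (a : ℤ) * Y + a' * X := by exact_mod_cast h3
  unfold psg
  by_cases ha : p ∣ a
  · have haz : (p : ℤ) ∣ (a : ℤ) := by exact_mod_cast ha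
    by_cases hX : p ∣ X
    · have hXz : (p : ℤ) ∣ (X : ℤ) := by exact_mod_cast hX
      rw [if_pos ⟨ha, hX⟩]
      have e1 : ∀ u : ℕ, (p : ℤ) ∣ (a : ℤ) * (u : ℤ) + (X : ℤ) := fun u =>
        dvd_add (haz.mul_right _) hXz
      by_cases ha' : p ∣ a'
      · have haz' : (p : ℤ) ∣ (a' : ℤ) := by exact_mod_cast ha'
        have e2 : jacobiSym ((a' * Y : ℕ) : ℤ) p = 0 :=
          jac_zero hp (by push_cast; exact haz'.mul_right _)
        rw [e2]
        by_cases hY : p ∣ Y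
        · have hYz : (p : ℤ) ∣ (Y : ℤ) := by exact_mod_cast hY
          rw [← sum_jac hp p2]
          refine Finset.sum_congr rfl fun u _ => ?_
          rw [G, if_pos ⟨e1 u, dvd_sub (haz'.mul_right _) hYz⟩]
        · refine Finset.sum_eq_zero fun u _ => ?_
          rw [G, if_neg]
          rintro ⟨-, h⟩
          apply hY
          have h4 : (p : ℤ) ∣ (Y : ℤ) := by
            have := dvd_sub (haz'.mul_right (u : ℤ)) h
            rwa [sub_sub_cancel] at this
          exact_mod_cast h4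
      · obtain ⟨u, hu, hu1, hu2⟩ := single hp ha' (Y : ℤ)
        rw [Finset.sum_eq_single u]
        · rw [G, if_pos ⟨e1 u, hu1⟩]
          have haz' : ¬ (p : ℤ) ∣ (a' : ℤ) := by exact_mod_cast ha'
          have h8 : (p : ℤ) ∣ ((a' * Y : ℕ) : ℤ) - a' * a' * u := by
            have : ((a' * Y : ℕ) : ℤ) - a' * a' * u = -(a' * (a' * u - Y)) := by push_cast; ring
            rw [this]
            exact (Dvd.dvd.mul_left hu1 _).neg_right
          rw [jac_congr h8, jacobiSym.mul_left, jacobiSym.mul_left, jac_sq hp haz', one_mul]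
        · intro v hv hvu
          rw [G, if_neg]
          rintro ⟨-, h⟩
          exact hvu (hu2 v hv h)
        · intro h
          exact absurd hu h
    · rw [if_neg (fun h => hX h.2)]
      have e2 : jacobiSym (-((a * X : ℕ) : ℤ)) p = 0 :=
        jac_zero hp (by push_cast; exact (haz.mul_right _).neg_right)
      rw [e2]
      refine Finset.sum_eq_zero fun u _ => ?_
      rw [G, if_neg]
      rintro ⟨h, -⟩
      apply hX
      have h4 : (p : ℤ) ∣ (X : ℤ) := (Int.dvd_add_right (haz.mul_right _)).1 h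
      exact_mod_cast h4
  · rw [if_neg (fun h => ha h.1)]
    have haz : ¬ (p : ℤ) ∣ (a : ℤ) := by exact_mod_cast ha
    obtain ⟨u, hu, hu1, hu2⟩ := single hp ha (-(X : ℤ))
    rw [sub_neg_eq_add] at hu1
    rw [Finset.sum_eq_single u]
    · have h7 : (p : ℤ) ∣ (a' : ℤ) * u - Y := by
        have h8 : (p : ℤ) ∣ a * ((a' : ℤ) * u - Y) := by
          have : (a : ℤ) * ((a' : ℤ) * u - Y) = a' * (a * u + X) - (a * Y + a' * X) := by ring
          rw [this]
          exact dvd_sub (hu1.mul_left _) h3z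
        rcases hpp.dvd_or_dvd h8 with h9 | h9
        · exact absurd h9 haz
        · exact h9
      rw [G, if_pos ⟨hu1, h7⟩]
      have h8 : (p : ℤ) ∣ (-((a * X : ℕ) : ℤ)) - a * a * u := by
        have : (-((a * X : ℕ) : ℤ)) - a * a * u = -(a * (a * u + X)) := by push_cast; ring
        rw [this]
        exact (Dvd.dvd.mul_left hu1 _).neg_right
      rw [jac_congr h8, jacobiSym.mul_left, jacobiSym.mul_left, jac_sq hp haz, one_mul]
    · intro v hv hvu
      rw [G, if_neg]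
      rintro ⟨h, -⟩
      apply hvu
      apply hu2 v hv
      rwa [sub_neg_eq_add]
    · intro h
      exact absurd hu h

end

theorem t_C1B : Pool.Agent.Z705.S_C1B := by
  classical
  intro m d hsq hodd a a' X Y hdet
  have hm : 0 < m := Nat.pos_of_ne_zero hsq.ne_zero
  have hP : ∀ p ∈ m.primeFactors, p.Prime := fun p hp => Nat.prime_of_mem_primeFactors hp
  have hprod : ∏ p ∈ m.primeFactors, p = m := Nat.prod_primeFactors_of_squarefree hsq
  have h1 : ∀ p ∈ m.primeFactors, ∑ u ∈ range p, G a a' X Y p u = psg p a a' Y X := by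
    intro p hp
    have hpm := Nat.dvd_of_mem_primeFactors hp
    refine local_sum a a' X Y (hP p hp) ?_ ?_
    · rintro rfl
      exact (Nat.not_even_iff_odd.2 hodd) (even_iff_two_dvd.2 hpm)
    · rw [hdet]
      exact hpm.mul_left _
  rw [← Finset.prod_congr rfl h1, ← sum_crt_prod (G a a' X Y) _ hP, hprod, Finset.sum_filter]
  have h2 : ∀ u : ℕ, ∏ p ∈ m.primeFactors, G a a' X Y p (u % p) =
      if (m : ℤ) ∣ (a : ℤ) * (u : ℤ) + (X : ℤ) ∧ (m : ℤ) ∣ (a' : ℤ) * (u : ℤ) - (Y : ℤ)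
      then jacobiSym (u : ℤ) m else 0 := by
    intro u
    have h3 : ∀ p ∈ m.primeFactors, G a a' X Y p (u % p) = G a a' X Y p u := fun p _ =>
      G_mod a a' X Y p u
    rw [Finset.prod_congr rfl h3]
    unfold G
    rw [Finset.prod_ite_zero]
    have h4 : (∀ p ∈ m.primeFactors, (p : ℤ) ∣ (a : ℤ) * (u : ℤ) + (X : ℤ) ∧
        (p : ℤ) ∣ (a' : ℤ) * (u : ℤ) - (Y : ℤ)) ↔
        ((m : ℤ) ∣ (a : ℤ) * (u : ℤ) + (X : ℤ) ∧ (m : ℤ) ∣ (a' : ℤ) * (u : ℤ) - (Y : ℤ)) := by
      have e1 := prod_dvd_iff hP ((a : ℤ) * (u : ℤ) + (X : ℤ))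
      have e2 := prod_dvd_iff hP ((a' : ℤ) * (u : ℤ) - (Y : ℤ))
      rw [hprod] at e1 e2
      rw [e1, e2]
      exact forall₂_and
    have h5 : ∏ p ∈ m.primeFactors, jacobiSym (u : ℤ) p = jacobiSym (u : ℤ) m := by
      rw [← jac_prod hP, hprod]
    rw [h5]
    simp only [h4]
  rw [un, Finset.sum_filter]
  refine Finset.sum_congr rfl fun u _ => ?_
  rw [h2]
  by_cases hc : Nat.Coprime u m
  · rw [if_pos hc]
  · rw [if_neg hc]
    have h3 : jacobiSym (u : ℤ) m = 0 := by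
      have := NeZero.mk hm.ne'
      rw [jacobiSym.eq_zero_iff_not_coprime]
      intro h
      exact hc (by simpa using h)
    rw [h3]
    simp

end Pool.Agent.Z363.Z705
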